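import Pool.Agent.K4H49.IR.Spec

/-!
# The weighted sums over the neighbourhoods (piece SUM)
-/

set_option autoImplicit false

open Finset

namespace Pool.Agent.K4H14.IR

open Pool.Agent.K4H49.IR

theorem hockey (k a : ℕ) : ∑ l ∈ range a, (l + k).choose k = (a + k).choose (k + 1) := by
  induction a with
  | zero => simp
  | succ a ih =>
    rw [sum_range_succ, ih, show a + 1 + k = (a + k) + 1 by ring, Nat.choose_succ_succ, add_comm]

theorem sum_Nf : StSum := by
  intro n M hn hM h
  obtain ⟨k, rfl⟩ : ∃ k, n = k + 2 := ⟨n - 2, by omega⟩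
  have hh := h.2
  have hf : ∀ l : ℕ, (l + (k + 2) - 2).choose (k + 2 - 2) = (l + k).choose k := fun l => by
    rw [show l + (k + 2) - 2 = l + k by omega, show k + 2 - 2 = k by omega]
  have h1 : (∑ l : Fin (M + 2 - (k + 2)) with h ∈ Nf (k + 2) M l,
      (l.1 + (k + 2) - 2).choose (k + 2 - 2)) =
      ∑ l ∈ range (M - k) with inN (k + 2) M h.1 (l + (k + 2) - 1), (l + k).choose k := by
    rw [sum_filter, sum_filter]
    have e : M + 2 - (k + 2) = M - k := by omega
    have e1 : ∀ l : Fin (M + 2 - (k + 2)), (if h ∈ Nf (k + 2) M l then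
        (l.1 + (k + 2) - 2).choose (k + 2 - 2) else 0) =
        (fun l : ℕ => if inN (k + 2) M h.1 (l + (k + 2) - 1) then (l + k).choose k else 0) l.1 := by
      intro l
      have : h ∈ Nf (k + 2) M l ↔ inN (k + 2) M h.1 (l.1 + (k + 2) - 1) := by
        unfold Nf
        rw [mem_filter]
        simp
      simp only [this, hf]
    rw [Fintype.sum_congr _ _ e1, Fin.sum_univ_eq_sum_range
      (fun l : ℕ => if inN (k + 2) M h.1 (l + (k + 2) - 1) then (l + k).choose k else 0), e]
  rw [h1]
  have h2 : ∑ l ∈ range (M - k), (l + k).choose k = M.choose (k + 2 - 1) := by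
    rw [hockey, show M - k + k = M by omega]
    rfl
  rw [← h2, ← sum_filter_add_sum_filter_not (range (M - k))
    (fun l => inN (k + 2) M h.1 (l + (k + 2) - 1))]
  congr 1
  obtain ⟨x, hx⟩ : ∃ x, x = h.1 := ⟨_, rfl⟩
  rw [← hx] at hh ⊢
  have hS1 : ∑ l ∈ range 1, (l + k).choose k = 1 := by simp
  unfold defect
  split_ifs with c1 c2
  · -- small
    have e : (range (M - k)).filter (fun l => ¬ inN (k + 2) M x (l + (k + 2) - 1)) =
        Ico 1 (x + 2) := by
      ext l
      rw [mem_filter, mem_range, mem_Ico]
      unfold inN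
      rw [if_pos c1]
      omega
    rw [e]
    have h3 := sum_range_add_sum_Ico (fun l => (l + k).choose k) (show 1 ≤ x + 2 by omega)
    rw [hS1, hockey] at h3
    rw [show k + 2 + x = x + 2 + k by ring, show k + 2 - 1 = k + 1 by omega]
    omega
  · -- far
    have e : (range (M - k)).filter (fun l => ¬ inN (k + 2) M x (l + (k + 2) - 1)) =
        range 1 ∪ Ico (M - x + 1) (x - k) := by
      ext l
      rw [mem_filter, mem_range, mem_union, mem_range, mem_Ico]
      unfold inN
      rw [if_neg c1, if_pos c2]
      omega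
    rw [e, sum_union]
    · have h3 := sum_range_add_sum_Ico (fun l => (l + k).choose k)
        (show M - x + 1 ≤ x - k by omega)
      rw [hockey, hockey] at h3
      rw [hS1, show k + 2 + (M - 1 - x) = M - x + 1 + k by omega, show k + 2 - 1 = k + 1 by omega]
      rw [show x - k + k = x by omega] at h3
      omega
    · rw [disjoint_left]
      intro l hl hl2
      rw [mem_range] at hl
      rw [mem_Ico] at hl2
      omega
  · -- normal
    have e : (range (M - k)).filter (fun l => ¬ inN (k + 2) M x (l + (k + 2) - 1)) =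
        range (x - k) := by
      ext l
      rw [mem_filter, mem_range, mem_range]
      unfold inN
      rw [if_neg c1, if_neg c2]
      omega
    rw [e, hockey, show x - k + k = x by omega]
    rfl

end Pool.Agent.K4H14.IR
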